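import Pool.Agent.N175.OC.Cov

set_option autoImplicit false
set_option linter.unusedSectionVars false

/-!
The double cover by eight even sets gives oriented covers of multiplicity two and three, and hence
of every multiplicity `h ≥ 2`.
-/

namespace Pool.Agent.N175.OC

open Finset Pool.Agent.H160R2.HF
open Pool.Agent.H126R2.CDC (T3 IsFl exists_double_cover)
open Pool.Agent.Helper879.ECD (F2 cn)

variable {V E : Type} [Fintype V] [DecidableEq V] [Fintype E] [DecidableEq E]

lemma CovI.prod {K : OrGraph V E} {ι κ : Type} [Fintype ι] [Fintype κ] {q : κ → E → ℕ}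
    (h : ∀ k, CovI K ι (q k)) : CovI K (κ × ι) (fun e => ∑ k, q k e) := by
  choose g h1 h2 h3 using h
  refine ⟨fun p => g p.1 p.2, fun p => h1 _ _, fun p => h2 _ _, fun e => ⟨?_, ?_⟩⟩
  · rw [Fintype.sum_prod_type]
    exact Finset.sum_congr rfl fun k _ => (h3 k e).1
  · rw [Fintype.sum_prod_type]
    exact Finset.sum_congr rfl fun k _ => (h3 k e).2

/-- the eight colours as points of the affine plane of order three, and the four parallel classes -/
def par (k : Fin 4) (c : T3) : ℕ :=
  let n := (if c.1 then 4 else 0) + (if c.2.1 then 2 else 0) + (if c.2.2 then 1 else 0)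
  match k with
  | 0 => n / 3
  | 1 => n % 3
  | 2 => (n / 3 + n % 3) % 3
  | 3 => (n / 3 + 2 * (n % 3)) % 3

/-- the parity of the number of colours of `s` on the line `r` of the class `k` -/
def odd3 (k : Fin 4) (r : ℕ) (s : Finset T3) : F2 :=
  ∑ c ∈ univ.filter (fun c => par k c = r), (if c ∈ s then 1 else 0)

theorem tab3 : ∀ a b : T3, a ≠ b →
    (∑ k : Fin 4, (if odd3 k 0 {a, b} ≠ 0 ∨ odd3 k 1 {a, b} ≠ 0 then 1 else 0)) = 3 := by
  decide +kernel

lemma base_of (K : OrGraph V E) (S : E → Finset T3) (X : Finset E)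
    (h1 : ∀ e, if e ∈ X then S e = ∅ else (S e).card = 2)
    (h2 : ∀ c, IsFl (hv K) (fun e => if c ∈ S e then 1 else 0)) :
    CovI K (T3 ⊕ T3) (fun e => if e ∈ X then 0 else 2) ∧
      CovI K (Fin 4 × Fin 4) (fun e => if e ∈ X then 0 else 3) := by
  constructor
  · apply cov_both K T3 (fun c e => if c ∈ S e then 1 else 0) h2
    intro e
    have h3 : (∑ c, if (if c ∈ S e then (1 : F2) else 0) ≠ 0 then 1 else 0) = (S e).card := by
      rw [← Finset.sum_filter, ← Finset.card_eq_sum_ones]
      congr 1
      ext c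
      simp
    rw [h3]
    have h4 := h1 e
    by_cases he : e ∈ X
    · rw [if_pos he] at h4 ⊢
      rw [h4]; rfl
    · rw [if_neg he] at h4 ⊢
      exact h4
  · have h3 : ∀ k r, IsFl (hv K) (fun e => odd3 k r (S e)) := fun k r =>
      fl_sum K _ (fun c e => if c ∈ S e then 1 else 0) (fun c _ => h2 c)
    refine (CovI.prod (fun k => cov_four K _ _ (h3 k 0) (h3 k 1))).congr ?_
    intro e
    have h4 := h1 e
    by_cases he : e ∈ X
    · rw [if_pos he] at h4 ⊢
      have h5 : ∀ k r, odd3 k r (S e) = 0 := by
        intro k r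
        rw [h4]
        unfold odd3
        simp
      refine Finset.sum_eq_zero fun k _ => ?_
      rw [if_neg]
      rw [h5, h5]
      simp
    · rw [if_neg he] at h4 ⊢
      obtain ⟨a, b, hab, he⟩ := Finset.card_eq_two.1 h4
      have := tab3 a b hab
      rw [← he] at this
      exact this

/-- oriented covers of multiplicity two and three of `K` without the edges in `X` -/
lemma base_minus (K : OrGraph V E) (X : Finset E)
    (hX : ∀ B : Finset V, cn K.t K.h (univ \ X) B ≠ 1) :
    CovI K (T3 ⊕ T3) (fun e => if e ∈ X then 0 else 2) ∧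
      CovI K (Fin 4 × Fin 4) (fun e => if e ∈ X then 0 else 3) := by
  classical
  let v' : E × Bool → V := fun h => if h.1 ∈ X then K.t h.1 else hv K h
  obtain ⟨S, hS1, hS2⟩ := exists_double_cover v' (by
    intro B
    have h1 : cn (fun e => v' (e, false)) (fun e => v' (e, true)) univ B =
        cn K.t K.h (univ \ X) B := by
      unfold cn
      congr 1
      ext e
      simp only [Finset.mem_filter, Finset.mem_univ, true_and, Finset.mem_sdiff, v']
      by_cases h : e ∈ X
      · simp [h]
      · simp [h, hv]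
    rw [h1]
    exact hX B)
  refine base_of K (fun e => if e ∈ X then ∅ else S e) X ?_ ?_
  · intro e
    by_cases he : e ∈ X
    · simp [he]
    · simp [he, hS1]
  · intro c w
    have h3 := hS2 c w
    refine Eq.trans ?_ h3
    rw [Fintype.sum_prod_type, Fintype.sum_prod_type]
    refine Finset.sum_congr rfl fun e _ => ?_
    rw [Fintype.sum_bool, Fintype.sum_bool]
    by_cases he : e ∈ X
    · have h4 : ∀ x : F2, (if K.t e = w then x else 0) + (if K.t e = w then x else 0) = 0 := by
        intro x
        exact Pool.Agent.Helper879.ECD.f2_add_self _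
      simp only [v', he, if_true, notMem_empty, if_false, ite_self, add_zero]
      exact (h4 _).symm
    · simp only [v', he, if_false]

lemma base (K : OrGraph V E) (hb : ∀ X : Finset V, cn K.t K.h univ X ≠ 1) :
    CovI K (T3 ⊕ T3) (fun _ => 2) ∧ CovI K (Fin 4 × Fin 4) (fun _ => 3) := by
  have h := base_minus K ∅ (by simpa using hb)
  exact ⟨h.1.congr (fun e => by simp), h.2.congr (fun e => by simp)⟩

/-- `n` circulations with values in `{-1, 0, 1}`; every edge has each of the values `1`, `-1`
exactly `h` times. -/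
def CovN (K : OrGraph V E) (n h : ℕ) : Prop := CovI K (Fin n) (fun _ => h)

lemma CovN.add {K : OrGraph V E} {n m h k : ℕ} (a : CovN K n h) (b : CovN K m k) :
    CovN K (n + m) (h + k) := (CovI.add a b).equiv finSumFinEquiv

lemma covN_two (K : OrGraph V E) (hb : ∀ X : Finset V, cn K.t K.h univ X ≠ 1) : CovN K 16 2 :=
  (base K hb).1.equiv (Fintype.equivFinOfCardEq (by decide))

lemma covN_three (K : OrGraph V E) (hb : ∀ X : Finset V, cn K.t K.h univ X ≠ 1) : CovN K 16 3 :=
  (base K hb).2.equiv (Fintype.equivFinOfCardEq (by decide))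

theorem covN_all (K : OrGraph V E) (hb : ∀ X : Finset V, cn K.t K.h univ X ≠ 1) :
    ∀ h, 2 ≤ h → CovN K (8 * h) h := by
  intro h
  induction h using Nat.strong_induction_on with
  | _ h ih =>
  intro h2
  by_cases h3 : h = 2
  · subst h3; exact covN_two K hb
  by_cases h4 : h = 3
  · subst h4
    exact (covN_three K hb).add (CovI.zero K (Fin 8))
  · obtain ⟨m, rfl⟩ : ∃ m, h = m + 2 := ⟨h - 2, by omega⟩
    exact (ih m (by omega) (by omega)).add (covN_two K hb)

end Pool.Agent.N175.OC
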