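import Pool.Agent.H126R2.CDC.Colour
import Pool.Agent.H160R2.HF.Final
import Pool.Agent.TH505.OCDC.Decomp

set_option autoImplicit false
set_option linter.unusedSectionVars false

/-!
Families of circulations with values in `{-1, 0, 1}` in which every edge has the value `1` as often
as the value `-1`.
-/

namespace Pool.Agent.N175.OC

open Finset Pool.Agent.H160R2.HF
open Pool.Agent.H126R2.CDC (T3 IsFl exists_double_cover)
open Pool.Agent.Helper879.ECD (F2 cn)

variable {V E : Type} [Fintype V] [DecidableEq V] [Fintype E] [DecidableEq E]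

/-- `CovI K ι q`: circulations indexed by `ι` with values in `{-1, 0, 1}`; the edge `e` has the value
`1` exactly `q e` times and the value `-1` exactly `q e` times. -/
def CovI (K : OrGraph V E) (ι : Type) [Fintype ι] (q : E → ℕ) : Prop :=
  ∃ g : ι → E → ℤ, (∀ i, K.IsFlow (g i)) ∧ (∀ i e, g i e = 0 ∨ g i e = 1 ∨ g i e = -1) ∧
    ∀ e, (∑ i, (if g i e = 1 then 1 else 0)) = q e ∧ (∑ i, (if g i e = -1 then 1 else 0)) = q e

lemma CovI.congr {K : OrGraph V E} {ι : Type} [Fintype ι] {q q' : E → ℕ} (h : CovI K ι q)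
    (hq : ∀ e, q e = q' e) : CovI K ι q' := by
  have : q = q' := funext hq
  rwa [← this]

lemma CovI.equiv {K : OrGraph V E} {ι κ : Type} [Fintype ι] [Fintype κ] {q : E → ℕ}
    (h : CovI K ι q) (e : ι ≃ κ) : CovI K κ q := by
  obtain ⟨g, h1, h2, h3⟩ := h
  refine ⟨fun k => g (e.symm k), fun k => h1 _, fun k => h2 _, fun a => ?_⟩
  obtain ⟨h4, h5⟩ := h3 a
  constructor
  · rw [← h4]
    exact Equiv.sum_comp e.symm (fun i => if g i a = 1 then 1 else 0)
  · rw [← h5]
    exact Equiv.sum_comp e.symm (fun i => if g i a = -1 then 1 else 0)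

lemma CovI.add {K : OrGraph V E} {ι κ : Type} [Fintype ι] [Fintype κ] {q r : E → ℕ}
    (h : CovI K ι q) (h' : CovI K κ r) : CovI K (ι ⊕ κ) (fun e => q e + r e) := by
  obtain ⟨g, h1, h2, h3⟩ := h
  obtain ⟨g', h1', h2', h3'⟩ := h'
  refine ⟨Sum.elim g g', ?_, ?_, ?_⟩
  · rintro (i | i)
    · exact h1 i
    · exact h1' i
  · rintro (i | i)
    · exact h2 i
    · exact h2' i
  · intro e
    rw [Fintype.sum_sum_type, Fintype.sum_sum_type]
    exact ⟨congrArg₂ (· + ·) (h3 e).1 (h3' e).1, congrArg₂ (· + ·) (h3 e).2 (h3' e).2⟩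

/-- padding by zero circulations -/
lemma CovI.zero (K : OrGraph V E) (κ : Type) [Fintype κ] : CovI K κ (fun _ => 0) := by
  refine ⟨fun _ _ => 0, fun i v => by simp, fun i e => Or.inl rfl, fun e => by simp⟩

/-- the ends of the half-edges -/
def hv (K : OrGraph V E) (p : E × Bool) : V := if p.2 then K.h p.1 else K.t p.1

lemma even_of_fl (K : OrGraph V E) (f : E → F2) (hf : IsFl (hv K) f) (w : V) :
    Even (K.deg (univ.filter (fun e => f e ≠ 0)) w) := by
  rw [← ZMod.natCast_eq_zero_iff_even]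
  refine Eq.trans ?_ (hf w)
  rw [Fintype.sum_prod_type]
  unfold OrGraph.deg
  rw [Nat.cast_add, Finset.card_filter, Finset.card_filter, Nat.cast_sum, Nat.cast_sum,
    ← Finset.sum_add_distrib, Finset.sum_filter]
  refine Finset.sum_congr rfl fun e _ => ?_
  rw [Fintype.sum_bool]
  have h2 : ∀ x : F2, x ≠ 0 → x = 1 := by decide
  by_cases he : f e = 0
  · simp [he]
  · rw [if_pos he, h2 _ he]
    simp only [hv]
    push_cast
    simp [add_comm]

lemma fl_add (K : OrGraph V E) (f g : E → F2) (hf : IsFl (hv K) f) (hg : IsFl (hv K) g) :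
    IsFl (hv K) (fun e => f e + g e) := by
  intro w
  have h1 := hf w
  have h2 := hg w
  have h3 := congrArg₂ (· + ·) h1 h2
  simp only [add_zero] at h3
  refine Eq.trans ?_ h3
  rw [← Finset.sum_add_distrib]
  refine Finset.sum_congr rfl fun e _ => ?_
  by_cases h : hv K e = w <;> simp [h]

lemma fl_sum (K : OrGraph V E) {κ : Type} (s : Finset κ) (f : κ → E → F2)
    (hf : ∀ c ∈ s, IsFl (hv K) (f c)) : IsFl (hv K) (fun e => ∑ c ∈ s, f c e) := by
  intro w
  have h1 : ∀ p : E × Bool, (if hv K p = w then ∑ c ∈ s, f c p.1 else 0) =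
      ∑ c ∈ s, (if hv K p = w then f c p.1 else 0) := by
    intro p
    by_cases h : hv K p = w <;> simp [h]
  rw [Finset.sum_congr rfl (fun p _ => h1 p), Finset.sum_comm]
  exact Finset.sum_eq_zero fun c hc => hf c hc w

/-- an orientation of the support of a flow modulo two -/
lemma orient_fl (K : OrGraph V E) (f : E → F2) (hf : IsFl (hv K) f) :
    ∃ ψ : E → ℤ, K.IsFlow ψ ∧ (∀ e, f e ≠ 0 → ψ e = 1 ∨ ψ e = -1) ∧ ∀ e, f e = 0 → ψ e = 0 := by
  obtain ⟨ψ, h1, h2⟩ := eulerian K.t K.h (univ.filter (fun e => f e ≠ 0))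
    (fun w => even_of_fl K f hf w)
  refine ⟨ψ, K.isFlow_of_net h2, fun e he => (h1 e).1 (by simp [he]), fun e he =>
    (h1 e).2 (by simp [he])⟩

/-- both directions of a family of even sets -/
lemma cov_both (K : OrGraph V E) (κ : Type) [Fintype κ] (f : κ → E → F2)
    (hf : ∀ c, IsFl (hv K) (f c)) (q : E → ℕ)
    (hq : ∀ e, (∑ c, (if f c e ≠ 0 then 1 else 0)) = q e) : CovI K (κ ⊕ κ) q := by
  choose ψ h1 h2 h3 using fun c => orient_fl K (f c) (hf c)
  have hval : ∀ c e, ψ c e = 0 ∨ ψ c e = 1 ∨ ψ c e = -1 := by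
    intro c e
    by_cases h : f c e = 0
    · exact Or.inl (h3 c e h)
    · exact Or.inr (h2 c e h)
  have hsum : ∀ e, (∑ c, ((if ψ c e = 1 then 1 else 0) + (if ψ c e = -1 then 1 else 0))) = q e := by
    intro e
    rw [← hq e]
    refine Finset.sum_congr rfl fun c _ => ?_
    by_cases h : f c e = 0
    · rw [h3 c e h]; simp [h]
    · rw [if_pos h]
      rcases h2 c e h with h4 | h4 <;> rw [h4] <;> norm_num
  refine ⟨Sum.elim ψ (fun c e => - ψ c e), ?_, ?_, ?_⟩
  · rintro (c | c)
    · exact h1 c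
    · intro v
      show ∑ e with K.t e = v, - ψ c e = ∑ e with K.h e = v, - ψ c e
      rw [Finset.sum_neg_distrib, Finset.sum_neg_distrib, h1 c v]
  · rintro (c | c) e
    · exact hval c e
    · show - ψ c e = 0 ∨ - ψ c e = 1 ∨ - ψ c e = -1
      rcases hval c e with h | h | h <;> rw [h] <;> norm_num
  · intro e
    rw [Fintype.sum_sum_type, Fintype.sum_sum_type]
    have h4 : ∀ c, (if - ψ c e = 1 then 1 else 0) = (if ψ c e = -1 then 1 else (0 : ℕ)) := by
      intro c
      rcases hval c e with h | h | h <;> rw [h] <;> norm_num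
    have h5 : ∀ c, (if - ψ c e = -1 then 1 else 0) = (if ψ c e = 1 then 1 else (0 : ℕ)) := by
      intro c
      rcases hval c e with h | h | h <;> rw [h] <;> norm_num
    constructor
    · rw [← hsum e, Finset.sum_add_distrib]
      congr 1
      exact Finset.sum_congr rfl fun c _ => h4 c
    · rw [← hsum e, Finset.sum_add_distrib, add_comm]
      congr 1
      exact Finset.sum_congr rfl fun c _ => h5 c

/-- the values of the four classes, doubled -/
def Y (a b c : ℤ) : Fin 4 → ℤ
  | 0 => a + b + c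
  | 1 => a - b - c
  | 2 => -a + b - c
  | 3 => -a - b + c

theorem Y_ok {a b c : ℤ}
    (h : (a = 0 ∧ (b = 1 ∨ b = -1) ∧ (c = 1 ∨ c = -1)) ∨
      (b = 0 ∧ (a = 1 ∨ a = -1) ∧ (c = 1 ∨ c = -1)) ∨
      (c = 0 ∧ (a = 1 ∨ a = -1) ∧ (b = 1 ∨ b = -1))) :
    ∃ p q : Fin 4, p ≠ q ∧ ∀ i,
      2 * ((if p = i then 1 else 0) - (if q = i then 1 else 0) : ℤ) = Y a b c i := by
  rcases h with ⟨rfl, h1, h2⟩ | ⟨rfl, h1, h2⟩ | ⟨rfl, h1, h2⟩ <;> rcases h1 with rfl | rfl <;>
    rcases h2 with rfl | rfl <;> decide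

lemma cnt_pq {n : ℕ} {p q : Fin n} (h : p ≠ q) :
    (∑ i, (if ((if p = i then 1 else 0) - (if q = i then 1 else 0) : ℤ) = 1 then 1 else 0)) = 1 ∧
    (∑ i, (if ((if p = i then 1 else 0) - (if q = i then 1 else 0) : ℤ) = -1 then 1 else 0)) = 1 := by
  constructor
  · rw [Finset.sum_eq_single p]
    · rw [if_pos rfl, if_neg h.symm]; norm_num
    · intro i _ hi
      rw [if_neg hi.symm]
      by_cases h1 : q = i
      · rw [if_pos h1]; norm_num
      · rw [if_neg h1]; norm_num
    · intro h1; exact absurd (mem_univ _) h1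
  · rw [Finset.sum_eq_single q]
    · rw [if_pos rfl, if_neg h]; norm_num
    · intro i _ hi
      rw [if_neg (c := q = i) hi.symm]
      by_cases h1 : p = i
      · rw [if_pos h1]; norm_num
      · rw [if_neg h1]; norm_num
    · intro h1; exact absurd (mem_univ _) h1

/-- four classes from two even sets; the edges outside their union are not used -/
lemma cov_four (K : OrGraph V E) (f₁ f₂ : E → F2) (h₁ : IsFl (hv K) f₁) (h₂ : IsFl (hv K) f₂) :
    CovI K (Fin 4) (fun e => if f₁ e ≠ 0 ∨ f₂ e ≠ 0 then 1 else 0) := by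
  obtain ⟨a, a0, a1, a2⟩ := orient_fl K f₁ h₁
  obtain ⟨b, b0, b1, b2⟩ := orient_fl K f₂ h₂
  obtain ⟨c, c0, c1, c2⟩ := orient_fl K (fun e => f₁ e + f₂ e) (fl_add K _ _ h₁ h₂)
  have hF : ∀ x y : F2, x ≠ 0 → y ≠ 0 → x + y = 0 := by decide
  have key : ∀ e, ∃ g : Fin 4 → ℤ, (∀ i, 2 * g i = Y (a e) (b e) (c e) i) ∧
      (∀ i, g i = 0 ∨ g i = 1 ∨ g i = -1) ∧
      (∑ i, (if g i = 1 then 1 else 0)) = (if f₁ e ≠ 0 ∨ f₂ e ≠ 0 then 1 else 0) ∧
      (∑ i, (if g i = -1 then 1 else 0)) = (if f₁ e ≠ 0 ∨ f₂ e ≠ 0 then 1 else 0) := by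
    intro e
    by_cases he : f₁ e ≠ 0 ∨ f₂ e ≠ 0
    · have hY : ∃ p q : Fin 4, p ≠ q ∧ ∀ i,
          2 * ((if p = i then 1 else 0) - (if q = i then 1 else 0) : ℤ) = Y (a e) (b e) (c e) i := by
        apply Y_ok
        by_cases x : f₁ e = 0
        · have y : f₂ e ≠ 0 := he.resolve_left (fun h => h x)
          left
          exact ⟨a2 e x, b1 e y, c1 e (by simpa [x] using y)⟩
        · by_cases y : f₂ e = 0
          · right; left
            exact ⟨b2 e y, a1 e x, c1 e (by simpa [y] using x)⟩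
          · right; right
            exact ⟨c2 e (hF _ _ x y), a1 e x, b1 e y⟩
      obtain ⟨p, q, hpq, h⟩ := hY
      refine ⟨fun i => (if p = i then 1 else 0) - (if q = i then 1 else 0), h, ?_, ?_⟩
      · intro i
        show (if p = i then (1 : ℤ) else 0) - (if q = i then 1 else 0) = 0 ∨
          (if p = i then (1 : ℤ) else 0) - (if q = i then 1 else 0) = 1 ∨
          (if p = i then (1 : ℤ) else 0) - (if q = i then 1 else 0) = -1
        split_ifs <;> norm_num
      · rw [if_pos he]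
        exact cnt_pq hpq
    · rw [not_or, not_not, not_not] at he
      have ha := a2 e he.1
      have hb := b2 e he.2
      have hc := c2 e (by rw [he.1, he.2]; rfl)
      refine ⟨fun _ => 0, fun i => ?_, fun i => Or.inl rfl, ?_, ?_⟩
      · rw [ha, hb, hc]
        fin_cases i <;> rfl
      · simp [he.1, he.2]
      · simp [he.1, he.2]
  choose g g1 g2 g3 g4 using key
  refine ⟨fun i e => g e i, fun i v => ?_, fun i e => g2 e i, fun e => ⟨g3 e, g4 e⟩⟩
  have h2 : ∑ e with K.t e = v, Y (a e) (b e) (c e) i =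
      ∑ e with K.h e = v, Y (a e) (b e) (c e) i := by
    have xa := a0 v
    have xb := b0 v
    have xc := c0 v
    fin_cases i
    · show ∑ e with K.t e = v, (a e + b e + c e) = ∑ e with K.h e = v, (a e + b e + c e)
      simp only [Finset.sum_add_distrib]
      linarith
    · show ∑ e with K.t e = v, (a e - b e - c e) = ∑ e with K.h e = v, (a e - b e - c e)
      simp only [Finset.sum_sub_distrib]
      linarith
    · show ∑ e with K.t e = v, (-a e + b e - c e) = ∑ e with K.h e = v, (-a e + b e - c e)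
      simp only [Finset.sum_sub_distrib, Finset.sum_add_distrib, Finset.sum_neg_distrib]
      linarith
    · show ∑ e with K.t e = v, (-a e - b e + c e) = ∑ e with K.h e = v, (-a e - b e + c e)
      simp only [Finset.sum_sub_distrib, Finset.sum_add_distrib, Finset.sum_neg_distrib]
      linarith
  simp only [← g1, ← Finset.mul_sum] at h2
  show ∑ e with K.t e = v, g e i = ∑ e with K.h e = v, g e i
  linarith

end Pool.Agent.N175.OC
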