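import Pool.Agent.N175.OC.Base
import Pool.Agent.N411.CV.Comp

set_option autoImplicit false
set_option linter.unusedSectionVars false

/-!
Oriented covers for weights whose values differ by a factor of at most about `8 / 7`.
-/

namespace Pool.Agent.N175.OC

open Finset Pool.Agent.H160R2.HF
open Pool.Agent.H126R2.CDC (T3 IsFl)
open Pool.Agent.H126R2.NC (TC)
open Pool.Agent.Helper879.ECD (F2 cn)
open Pool.Agent.N411.CV (colouring_bridgeless hasCol_eight)

variable {V E : Type} [Fintype V] [DecidableEq V] [Fintype E] [DecidableEq E]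

/-- circulations with values in `{-1, 0, 1}`; the edge `e` has each of the values `1`, `-1` exactly
`p e` times -/
def CovE (K : OrGraph V E) (p : E → ℕ) : Prop := ∃ n : ℕ, CovI K (Fin n) p

lemma CovI.toE {K : OrGraph V E} {ι : Type} [Fintype ι] {q : E → ℕ} (h : CovI K ι q) :
    CovE K q := ⟨Fintype.card ι, h.equiv (Fintype.equivFin ι)⟩

lemma CovE.add {K : OrGraph V E} {q r : E → ℕ} (h : CovE K q) (h' : CovE K r) :
    CovE K (fun e => q e + r e) := by
  obtain ⟨n, a⟩ := h
  obtain ⟨m, b⟩ := h'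
  exact (CovI.add a b).toE

lemma CovE.sum {K : OrGraph V E} {κ : Type} [DecidableEq κ] (s : Finset κ) (q : κ → E → ℕ)
    (h : ∀ k ∈ s, CovE K (q k)) : CovE K (fun e => ∑ k ∈ s, q k e) := by
  induction s using Finset.induction_on with
  | empty => exact (CovI.zero K (Fin 0)).toE.elim fun n h => ⟨n, h.congr fun e => by simp⟩
  | insert a s ha ih =>
    have h1 := (h a (mem_insert_self _ _)).add (ih fun k hk => h k (mem_insert_of_mem hk))
    obtain ⟨n, h2⟩ := h1
    exact ⟨n, h2.congr fun e => by rw [Finset.sum_insert ha]⟩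

abbrev C8 := Bool ⊕ (Fin 3 ⊕ Fin 3)

theorem near (K : OrGraph V E) (hb : ∀ X : Finset V, cn K.t K.h univ X ≠ 1) (p : E → ℕ)
    (htc : ∀ e f, TC K.t K.h e f → p e = p f) (hr : ∀ e f, 7 * p e + 48 ≤ 8 * p f) :
    CovE K p := by
  classical
  by_cases hE : IsEmpty E
  · exact ⟨0, fun i => i.elim0, fun i => i.elim0, fun i => i.elim0, fun e => (hE.false e).elim⟩
  rw [not_isEmpty_iff] at hE
  obtain ⟨col, hcol1, hcol2⟩ := colouring_bridgeless hasCol_eight K.t K.h hb
  obtain ⟨e0, -, he0⟩ := Finset.exists_max_image (univ : Finset E) p (Finset.univ_nonempty)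
  obtain ⟨e1, -, he1⟩ := Finset.exists_min_image (univ : Finset E) p (Finset.univ_nonempty)
  set M := p e0 with hM
  set μ := p e1 with hμ
  have hle0 : ∀ e, p e ≤ M := fun e => he0 e (Finset.mem_univ _)
  have hle1 : ∀ e, μ ≤ p e := fun e => he1 e (Finset.mem_univ _)
  have hMμ : 7 * M + 48 ≤ 8 * μ := hr e0 e1
  have hμM : μ ≤ M := hle0 e1
  -- the number of layers of multiplicity two for each colour
  obtain ⟨m, hm1, hm2⟩ : ∃ m : ℕ, M - μ + 2 ≤ 2 * m ∧ 2 * m ≤ M - μ + 3 :=
    ⟨(M - μ + 3) / 2, by omega, by omega⟩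
  -- the amount by which the edge `e` has to be reduced
  let d : E → ℕ := fun e => M + 2 - p e
  let a : E → ℕ := fun e => (d e - 3 * (d e % 2)) / 2
  have hd1 : ∀ e, 2 ≤ d e ∧ d e ≤ 2 * m := fun e => by
    have := hle0 e
    have := hle1 e
    show 2 ≤ M + 2 - p e ∧ M + 2 - p e ≤ 2 * m
    omega
  have ha : ∀ e, a e ≤ m ∧ d e = 2 * a e + 3 * (d e % 2) := fun e => by
    have := hd1 e
    show (d e - 3 * (d e % 2)) / 2 ≤ m ∧ d e = 2 * ((d e - 3 * (d e % 2)) / 2) + 3 * (d e % 2)
    omega
  have hdtc : ∀ e f, TC K.t K.h e f → d e = d f := fun e f h => by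
    show M + 2 - p e = M + 2 - p f
    rw [htc e f h]
  have hatc : ∀ e f, TC K.t K.h e f → a e = a f := fun e f h => by
    show (d e - 3 * (d e % 2)) / 2 = (d f - 3 * (d f % 2)) / 2
    rw [hdtc e f h]
  -- layers of multiplicity two
  have h2 : ∀ (t : ℕ) (γ : C8), CovE K (fun e => if col e = γ ∧ t < a e then 0 else 2) := by
    intro t γ
    have h := (base_minus K (univ.filter (fun e => col e = γ ∧ t < a e)) (by
      apply hcol2 _ γ
      · intro e he
        exact (Finset.mem_filter.1 he).2.1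
      · intro e he f hef
        rw [Finset.mem_filter] at he ⊢
        refine ⟨Finset.mem_univ _, ?_, ?_⟩
        · rw [← hcol1 e f hef]; exact he.2.1
        · rw [← hatc e f hef]; exact he.2.2)).1.toE
    obtain ⟨n, h⟩ := h
    exact ⟨n, h.congr fun e => by simp⟩
  -- layers of multiplicity three
  have h3 : ∀ γ : C8, CovE K (fun e => if col e = γ ∧ d e % 2 = 1 then 0 else 3) := by
    intro γ
    have h := (base_minus K (univ.filter (fun e => col e = γ ∧ d e % 2 = 1)) (by
      apply hcol2 _ γ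
      · intro e he
        exact (Finset.mem_filter.1 he).2.1
      · intro e he f hef
        rw [Finset.mem_filter] at he ⊢
        refine ⟨Finset.mem_univ _, ?_, ?_⟩
        · rw [← hcol1 e f hef]; exact he.2.1
        · rw [← hdtc e f hef]; exact he.2.2)).2.toE
    obtain ⟨n, h⟩ := h
    exact ⟨n, h.congr fun e => by simp⟩
  -- constant layers
  obtain ⟨R, hR, hR2⟩ : ∃ R : ℕ, M + 2 = 8 * (2 * m + 3) + R ∧ 2 ≤ R :=
    ⟨M + 2 - 8 * (2 * m + 3), by omega, by omega⟩
  have h4 : CovE K (fun _ => R) := ⟨_, covN_all K hb R hR2⟩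
  have h5 := (CovE.sum (Finset.range m) _ (fun t _ => CovE.sum (univ : Finset C8) _
    (fun γ _ => h2 t γ))).add ((CovE.sum (univ : Finset C8) _ (fun γ _ => h3 γ)).add h4)
  obtain ⟨n, h5⟩ := h5
  refine ⟨n, h5.congr fun e => ?_⟩
  have hs : ∀ (P : Prop) [Decidable P] (c : ℕ),
      (∑ γ : C8, (if col e = γ ∧ P then 0 else c)) + (if P then c else 0) = 8 * c := by
    intro P _ c
    have h7 : ∀ γ ∈ (univ : Finset C8), (if col e = γ ∧ P then 0 else c) +
        (if col e = γ then (if P then c else 0) else 0) = c := by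
      intro γ _
      by_cases h : col e = γ <;> by_cases h' : P <;> simp [h, h']
    have h8 := Finset.sum_congr rfl h7
    rw [Finset.sum_add_distrib, Finset.sum_ite_eq] at h8
    simpa using h8
  have h6 : ∀ t, (∑ γ : C8, (if col e = γ ∧ t < a e then 0 else 2)) +
      (if t < a e then 2 else 0) = 16 := fun t => hs (t < a e) 2
  have h7 := hs (d e % 2 = 1) 3
  have h8 : (∑ t ∈ Finset.range m, ∑ γ : C8, (if col e = γ ∧ t < a e then 0 else 2)) + 2 * a e =
      16 * m := by
    have h9 := Finset.sum_congr rfl (fun t (_ : t ∈ Finset.range m) => h6 t)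
    rw [Finset.sum_add_distrib] at h9
    have h10 : ∑ t ∈ Finset.range m, (if t < a e then 2 else 0) = 2 * a e := by
      rw [← Finset.sum_filter, Finset.sum_const, smul_eq_mul, mul_comm]
      congr 1
      have h11 : (Finset.range m).filter (fun t => t < a e) = Finset.range (a e) := by
        ext t
        rw [Finset.mem_filter, Finset.mem_range, Finset.mem_range]
        have := (ha e).1
        omega
      rw [h11, Finset.card_range]
    rw [h10, Finset.sum_const, Finset.card_range, smul_eq_mul] at h9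
    linarith
  show (∑ t ∈ Finset.range m, ∑ γ : C8, (if col e = γ ∧ t < a e then 0 else 2)) +
    ((∑ γ : C8, (if col e = γ ∧ d e % 2 = 1 then 0 else 3)) + R) = p e
  have h12 := ha e
  have h13 : d e = M + 2 - p e := rfl
  have h14 := hle0 e
  have h15 : (if d e % 2 = 1 then 3 else 0) = 3 * (d e % 2) := by
    split_ifs with h <;> omega
  rw [h15] at h7
  omega

end Pool.Agent.N175.OC
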