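import Pool.Agent.N175.OC.Near

set_option autoImplicit false
set_option linter.unusedSectionVars false

/-!
From circulations on an orientation of a simple graph to lists of directed cycles.
-/

namespace Pool.Agent.N175.OC

open Finset Pool.Agent.H160R2.HF
open Pool.Agent.TH505.OCDC
open Pool.Agent.H126R2.NC (TC)
open Pool.Agent.Helper879.ECD (F2 cn)

/-- The flow on the pairs of vertices. -/
def gfl {V E : Type} [Fintype E] [DecidableEq V] (K : OrGraph V E) (g : E → ℤ) (u v : V) : ℤ :=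
  ∑ e, g e *
    ((if K.t e = u ∧ K.h e = v then 1 else 0) - (if K.h e = u ∧ K.t e = v then 1 else 0))

theorem lists {V E : Type} [Fintype V] [Fintype E] [DecidableEq V] (S : SimpleGraph V)
    (K : OrGraph V E) (hK1 : ∀ e, S.Adj (K.t e) (K.h e))
    (hK2 : ∀ u v, S.Adj u v → ∃! e, (K.t e = u ∧ K.h e = v) ∨ (K.h e = u ∧ K.t e = v))
    (g : E → ℤ) (hf : K.IsFlow g) (hg : ∀ e, g e = 0 ∨ g e = 1 ∨ g e = -1) :
    ∃ C : List (Σ v : V, S.Walk v v), (∀ c ∈ C, c.2.IsCycle) ∧
      (∀ u v, ¬ S.Adj u v → tot C u v = 0) ∧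
      ∀ u v e, (K.t e = u ∧ K.h e = v → tot C u v = ind (g e = 1)) ∧
        (K.h e = u ∧ K.t e = v → tot C u v = ind (g e = -1)) := by
  have hanti : ∀ u v, gfl K g v u = - gfl K g u v := by
    intro u v
    unfold gfl
    rw [← Finset.sum_neg_distrib]
    refine Finset.sum_congr rfl fun e _ => ?_
    simp only [and_comm]
    ring
  have hz : ∀ u v, ¬ S.Adj u v → gfl K g u v = 0 := by
    intro u v h
    unfold gfl
    refine Finset.sum_eq_zero fun e _ => ?_
    rw [if_neg (c := K.t e = u ∧ K.h e = v), if_neg (c := K.h e = u ∧ K.t e = v)]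
    · ring
    · rintro ⟨h1, h2⟩
      exact h (h1 ▸ h2 ▸ (hK1 e).symm)
    · rintro ⟨h1, h2⟩
      exact h (h1 ▸ h2 ▸ (hK1 e))
  have hval : ∀ u v, S.Adj u v → ∀ e₀, (K.t e₀ = u ∧ K.h e₀ = v → gfl K g u v = g e₀) ∧
      (K.h e₀ = u ∧ K.t e₀ = v → gfl K g u v = - g e₀) := by
    intro u v h e₀
    have hne := h.ne
    obtain ⟨e₁, he₁, huniq⟩ := hK2 u v h
    have h0 : ((K.t e₀ = u ∧ K.h e₀ = v) ∨ (K.h e₀ = u ∧ K.t e₀ = v)) →
        gfl K g u v = g e₀ * ((if K.t e₀ = u ∧ K.h e₀ = v then 1 else 0) -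
          (if K.h e₀ = u ∧ K.t e₀ = v then 1 else 0)) := by
      intro he₀
      have he : e₀ = e₁ := huniq e₀ he₀
      subst he
      unfold gfl
      refine Finset.sum_eq_single_of_mem e₀ (mem_univ _) ?_
      intro e _ hne'
      have h1 : ¬ ((K.t e = u ∧ K.h e = v) ∨ (K.h e = u ∧ K.t e = v)) := fun h => hne' (huniq e h)
      rw [not_or] at h1
      rw [if_neg h1.1, if_neg h1.2]
      ring
    constructor
    · intro h1
      rw [h0 (Or.inl h1), if_pos h1,
        if_neg (c := K.h e₀ = u ∧ K.t e₀ = v) (fun h3 => hne (h1.1.symm.trans h3.2))]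
      ring
    · intro h1
      rw [h0 (Or.inr h1), if_neg (c := K.t e₀ = u ∧ K.h e₀ = v)
        (fun h3 => hne (h3.1.symm.trans h1.2)), if_pos h1]
      ring
  have hcons : ∀ u, ∑ w, gfl K g u w = 0 := by
    intro u
    have h := hf u
    rw [Finset.sum_filter, Finset.sum_filter, ← sub_eq_zero, ← Finset.sum_sub_distrib] at h
    rw [← h]
    unfold gfl
    rw [Finset.sum_comm]
    refine Finset.sum_congr rfl fun e _ => ?_
    rw [← Finset.mul_sum, Finset.sum_sub_distrib]
    have e1 : (∑ x : V, if K.t e = u ∧ K.h e = x then (1 : ℤ) else 0) =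
        if K.t e = u then 1 else 0 := by
      by_cases h : K.t e = u <;> simp [h]
    have e2 : (∑ x : V, if K.h e = u ∧ K.t e = x then (1 : ℤ) else 0) =
        if K.h e = u then 1 else 0 := by
      by_cases h : K.h e = u <;> simp [h]
    rw [e1, e2]
    split_ifs <;> ring
  have hv3 : ∀ u v, gfl K g u v = 0 ∨ gfl K g u v = 1 ∨ gfl K g u v = -1 := by
    intro u v
    by_cases h : S.Adj u v
    · obtain ⟨e, he, -⟩ := hK2 u v h
      rcases he with he | he
      · rw [(hval u v h e).1 he]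
        exact hg e
      · rw [(hval u v h e).2 he]
        rcases hg e with h1 | h1 | h1 <;> rw [h1] <;> norm_num
    · exact Or.inl (hz u v h)
  obtain ⟨C, hC1, hC2⟩ := flow_decomp (gfl K g) hanti hv3 (fun u v hne => by
      by_contra h'
      exact hne (hz u v h')) hcons
  refine ⟨C, hC1, ?_, ?_⟩
  · intro u v h
    rw [hC2, hz u v h, ind_neg (by norm_num)]
  · intro u v e
    constructor
    · intro he
      have hadj : S.Adj u v := he.1 ▸ he.2 ▸ hK1 e
      rw [hC2, (hval u v hadj e).1 he]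
    · intro he
      have hadj : S.Adj u v := he.1 ▸ he.2 ▸ (hK1 e).symm
      rw [hC2, (hval u v hadj e).2 he]
      rcases hg e with h1 | h1 | h1
      · rw [h1, ind_neg (by norm_num), ind_neg (by norm_num)]
      · rw [h1, ind_neg (by norm_num), ind_neg (by norm_num)]
      · rw [h1, ind_pos (by norm_num), ind_pos (by norm_num)]

/-- The edges of a simple graph, in one direction. -/
noncomputable def orient {V : Type} (S : SimpleGraph V) : OrGraph V S.edgeSet where
  t := fun e => (Quot.out e.1).1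
  h := fun e => (Quot.out e.1).2

theorem orient_mk {V : Type} (S : SimpleGraph V) (e : S.edgeSet) :
    s((orient S).t e, (orient S).h e) = e.1 := Quot.out_eq e.1

theorem orient_adj {V : Type} (S : SimpleGraph V) (e : S.edgeSet) :
    S.Adj ((orient S).t e) ((orient S).h e) := by
  rw [← SimpleGraph.mem_edgeSet, orient_mk]
  exact e.2

theorem orient_uniq {V : Type} (S : SimpleGraph V) (u v : V) (huv : S.Adj u v) :
    ∃! e, ((orient S).t e = u ∧ (orient S).h e = v) ∨
      ((orient S).h e = u ∧ (orient S).t e = v) := by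
  refine ⟨⟨s(u, v), huv⟩, ?_, ?_⟩
  · have h := orient_mk S ⟨s(u, v), huv⟩
    rcases Sym2.eq_iff.1 h with ⟨h1, h2⟩ | ⟨h1, h2⟩
    · exact Or.inl ⟨h1, h2⟩
    · exact Or.inr ⟨h2, h1⟩
  · intro e he
    apply Subtype.ext
    rw [← orient_mk S e]
    rcases he with ⟨h1, h2⟩ | ⟨h1, h2⟩
    · show s((orient S).t e, (orient S).h e) = s(u, v)
      rw [h1, h2]
    · show s((orient S).t e, (orient S).h e) = s(u, v)
      rw [h1, h2, Sym2.eq_swap]

theorem orient_bridgeless {V : Type} [Fintype V] [DecidableEq V] (S : SimpleGraph V)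
    [Fintype S.edgeSet] [DecidableEq S.edgeSet]
    (h : ∀ u v : V, S.Adj u v → (S.deleteEdges {s(u, v)}).Reachable u v) (Y : Finset V) :
    cn (orient S).t (orient S).h univ Y ≠ 1 := by
  intro hc
  unfold cn at hc
  obtain ⟨e, he⟩ := card_eq_one.mp hc
  have hm : ∀ e', e' ∈ (univ : Finset S.edgeSet).filter
      (fun e => ¬ ((orient S).t e ∈ Y ↔ (orient S).h e ∈ Y)) ↔
      ¬ ((orient S).t e' ∈ Y ↔ (orient S).h e' ∈ Y) := by
    intro e'
    rw [mem_filter]
    simp
  rw [he] at hm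
  have hadj : ∀ a b, (S.deleteEdges {s((orient S).t e, (orient S).h e)}).Adj a b →
      (a ∈ Y ↔ b ∈ Y) := by
    intro a b hab
    rw [SimpleGraph.deleteEdges_adj] at hab
    by_contra hcon
    have h1 : (⟨s(a, b), hab.1⟩ : S.edgeSet) ∈ ({e} : Finset S.edgeSet) := by
      rw [hm]
      have h2 := orient_mk S ⟨s(a, b), hab.1⟩
      rcases Sym2.eq_iff.1 h2 with ⟨h3, h4⟩ | ⟨h3, h4⟩
      · rw [h3, h4]; exact hcon
      · rw [h3, h4]; exact fun h5 => hcon h5.symm
    rw [mem_singleton] at h1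
    apply hab.2
    rw [Set.mem_singleton_iff, orient_mk, ← h1]
  obtain ⟨p⟩ := h _ _ (orient_adj S e)
  have key : ∀ a b, (S.deleteEdges {s((orient S).t e, (orient S).h e)}).Walk a b →
      (a ∈ Y ↔ b ∈ Y) := by
    intro a b p
    induction p with
    | nil => exact Iff.rfl
    | cons hab _ ih => exact (hadj _ _ hab).trans ih
  exact (hm e).1 (mem_singleton_self e) (key _ _ p)

/-- The edges of `S` with exactly one end in `X`. -/
def leaving {V : Type} (S : SimpleGraph V) (X : Set V) : Set (Sym2 V) :=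
  {e | ∃ u v, S.Adj u v ∧ u ∈ X ∧ v ∉ X ∧ e = s(u, v)}

theorem tc_leaving {V : Type} [Fintype V] [DecidableEq V] (S : SimpleGraph V)
    [Fintype S.edgeSet] [DecidableEq S.edgeSet] (e f : S.edgeSet)
    (h : TC (orient S).t (orient S).h e f) : e = f ∨ ∃ X : Set V, leaving S X = {e.1, f.1} := by
  by_cases hef : e = f
  · exact Or.inl hef
  right
  obtain ⟨z, hz⟩ := h
  refine ⟨{v | z v = 1}, ?_⟩
  have hF : ∀ x y : F2, x + y = 1 ↔ ((x = 1 ∧ ¬ y = 1) ∨ (y = 1 ∧ ¬ x = 1)) := by decide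
  have h2 : ∀ g : S.edgeSet, (z ((orient S).t g) + z ((orient S).h g) = 1) ↔ (g = e ∨ g = f) := by
    intro g
    rw [hz g]
    by_cases h1 : g = e
    · have : g ≠ f := fun h3 => hef (h1.symm.trans h3)
      rw [if_pos h1, if_neg this]
      simp [h1]
    · by_cases h3 : g = f
      · rw [if_neg h1, if_pos h3]
        simp [h3]
      · rw [if_neg h1, if_neg h3]
        simp [h1, h3]
  ext g
  constructor
  · rintro ⟨u, v, huv, hu, hv, rfl⟩
    have h3 := orient_mk S ⟨s(u, v), huv⟩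
    have h4 := (h2 ⟨s(u, v), huv⟩).1 (by
      rw [hF]
      rcases Sym2.eq_iff.1 h3 with ⟨h5, h6⟩ | ⟨h5, h6⟩
      · left
        rw [h5, h6]
        exact ⟨hu, hv⟩
      · right
        rw [h5, h6]
        exact ⟨hu, hv⟩)
    rcases h4 with h4 | h4
    · left; exact congrArg Subtype.val h4
    · right; exact congrArg Subtype.val h4
  · intro hg
    obtain ⟨g', hg', hgg⟩ : ∃ g' : S.edgeSet, (g' = e ∨ g' = f) ∧ g'.1 = g := by
      rcases hg with hg | hg
      · exact ⟨e, Or.inl rfl, hg.symm⟩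
      · exact ⟨f, Or.inr rfl, (Set.mem_singleton_iff.1 hg).symm⟩
    have h3 := (hF _ _).1 ((h2 g').2 hg')
    rcases h3 with h3 | h3
    · exact ⟨_, _, orient_adj S g', h3.1, h3.2, by rw [orient_mk, hgg]⟩
    · exact ⟨_, _, (orient_adj S g').symm, h3.1, h3.2, by rw [Sym2.eq_swap, orient_mk, hgg]⟩

end Pool.Agent.N175.OC
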